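import Pool.Agent.helper56.CY.Spec

/-! # Row TRI of project cy (MP_45d809_mp) -/

namespace Pool.Agent.CY
open Finset CT

theorem TRI_fun : ∀ a b : Fin 4, a ≠ b → ∃ c d : Fin 4, Function.Injective ![a, b, c, d] := by
  decide

theorem TRI_dts {V : Type} [DecidableEq V] {S : Finset V} {d : V × Fin 4} :
    d ∈ dts S ↔ d.1 ∈ S := by
  unfold dts
  simp [Finset.mem_product]

theorem TRI_act {V : Type} [DecidableEq V] {S : Finset V} {e : V × Fin 4 → V × Fin 4}
    (hA : Act (dts S) e) {d : V × Fin 4} (h : d.1 ∈ S) : (e d).1 ∈ S := by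
  rw [← TRI_dts, ← hA.2]
  rw [hA.1]
  exact Ne.symm ((hA.2 d).2 (TRI_dts.2 h))

theorem TRI_out {V : Type} [DecidableEq V] {S : Finset V} {e : V × Fin 4 → V × Fin 4}
    (hA : Act (dts S) e) (hS : Smp S e) {x y z : V} {r r1 r2 : Fin 4} (hx : x ∈ S)
    (h1 : (e (x, r1)).1 = y) (h2 : (e (x, r2)).1 = z) (hr1 : r ≠ r1) (hr2 : r ≠ r2) :
    (e (x, r)).1 ∈ S ∧ (e (x, r)).1 ≠ x ∧ (e (x, r)).1 ≠ y ∧ (e (x, r)).1 ≠ z := by
  refine ⟨TRI_act hA hx, hS.1 x hx r, ?_, ?_⟩
  · intro h
    exact hr1 (hS.2 x hx r r1 (h.trans h1.symm))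
  · intro h
    exact hr2 (hS.2 x hx r r2 (h.trans h2.symm))

theorem TRI_even {V : Type} [DecidableEq V] {S : Finset V} {e : V × Fin 4 → V × Fin 4}
    {c : V × Fin 4 → ℕ} {m : ℕ} (hA : Act (dts S) e) (hc : ∀ d, c (e d) = c d) :
    Even ((dts S).filter fun d => c d = m).card := by
  have h0 : ∑ x ∈ (dts S).filter (fun d => c d = m), (1 : ZMod 2) = 0 := by
    apply Finset.sum_involution (fun d _ => e d)
    · intro a _
      decide
    · intro a ha _
      rw [Finset.mem_filter] at ha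
      exact (hA.2 a).2 ha.1
    · intro a ha
      rw [Finset.mem_filter] at ha ⊢
      exact ⟨TRI_dts.2 (TRI_act hA (TRI_dts.1 ha.1)), (hc a).trans ha.2⟩
    · intro a ha
      exact hA.1 a
  rw [Finset.sum_const, nsmul_eq_mul, mul_one] at h0
  exact (ZMod.natCast_eq_zero_iff_even).1 h0

theorem TRI (hSIX : SIX_stmt) : TRI_stmt := by
  intro V _ L e c m hnd hA hS hc hd hcard
  obtain ⟨⟨u, v, w, a, b, p, p', q, q', hu, hv, hw, huv, huw, hvw, hab, hpp, hqq, e1, e2, c1, c2,
    c3, c4, c5, c6⟩, h6⟩ := hSIX V L.toFinset e c m hA hS hc hd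
  have hev := TRI_even (m := m) hA hc.1
  have hP6 : ((dts L.toFinset).filter fun d => c d = m).card = 6 := by
    obtain ⟨r, hr⟩ := hev
    omega
  have hT : ({(u, a), (u, b), (v, p), (v, p'), (w, q), (w, q')} : Finset (V × Fin 4)) =
      (dts L.toFinset).filter fun d => c d = m := by
    apply Finset.eq_of_subset_of_card_le
    · intro d hd'
      rw [Finset.mem_filter, TRI_dts]
      simp only [Finset.mem_insert, Finset.mem_singleton] at hd'
      rcases hd' with h | h | h | h | h | h <;> rw [h]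
      · exact ⟨hu, c1⟩
      · exact ⟨hu, c2⟩
      · exact ⟨hv, c3⟩
      · exact ⟨hv, c4⟩
      · exact ⟨hw, c5⟩
      · exact ⟨hw, c6⟩
    · rw [hP6]
      apply le_of_eq
      symm
      rw [Finset.card_insert_of_notMem, Finset.card_insert_of_notMem,
        Finset.card_insert_of_notMem, Finset.card_insert_of_notMem,
        Finset.card_insert_of_notMem, Finset.card_singleton]
      · simp [hqq]
      · simp [hvw]
      · simp [hvw, hpp]
      · simp [huv, huw]
      · simp [huv, huw, hab]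
  have hmem : ∀ d : V × Fin 4, d.1 ∈ L.toFinset → (c d = m ↔ (d = (u, a) ∨ d = (u, b) ∨
      d = (v, p) ∨ d = (v, p') ∨ d = (w, q) ∨ d = (w, q'))) := by
    intro d hd'
    have h1 : d ∈ ({(u, a), (u, b), (v, p), (v, p'), (w, q), (w, q')} : Finset (V × Fin 4)) ↔
        d ∈ (dts L.toFinset).filter fun d => c d = m := by rw [hT]
    rw [Finset.mem_filter, TRI_dts] at h1
    simp only [Finset.mem_insert, Finset.mem_singleton] at h1
    constructor
    · intro h
      exact h1.2 ⟨hd', h⟩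
    · intro h
      exact (h1.1 h).2
  have hvu : e (v, p) = (u, a) := by rw [← e1, hA.1]
  have hwu : e (w, q) = (u, b) := by rw [← e2, hA.1]
  have hvw' : e (v, p') = (w, q') := by
    have h1 := (hmem (e (v, p')) (TRI_act hA hv)).1 ((hc.1 _).trans c4)
    have h2 : (e (v, p')).1 ≠ v := hS.1 v hv p'
    rcases h1 with h | h | h | h | h | h
    · exfalso
      have h3 : (v, p') = (v, p) := by rw [← e1, ← h, hA.1]
      exact hpp (Prod.ext_iff.1 h3).2.symm
    · exfalso
      have h3 : (v, p') = (w, q) := by rw [← e2, ← h, hA.1]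
      exact hvw (Prod.ext_iff.1 h3).1
    · exact absurd (by rw [h]) h2
    · exact absurd (by rw [h]) h2
    · exfalso
      have h3 : (v, p') = (u, b) := by rw [← hwu, ← h, hA.1]
      exact huv (Prod.ext_iff.1 h3).1.symm
    · exact h
  have hwv' : e (w, q') = (v, p') := by rw [← hvw', hA.1]
  obtain ⟨i2, i3, hi⟩ := TRI_fun a b hab
  obtain ⟨j2, j3, hj⟩ := TRI_fun p' p (Ne.symm hpp)
  obtain ⟨k2, k3, hk⟩ := TRI_fun q q' hqq
  have hR : ∀ x : V, x ∈ L.toFinset → x ≠ u → x ≠ v → x ≠ w →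
      x ∈ ((L.erase u).erase v).erase w := by
    intro x hx h1 h2 h3
    rw [List.mem_erase_of_ne h3, List.mem_erase_of_ne h2, List.mem_erase_of_ne h1]
    exact List.mem_toFinset.1 hx
  have hperm : L.Perm (u :: v :: w :: ((L.erase u).erase v).erase w) := by
    have p1 := List.perm_cons_erase (List.mem_toFinset.1 hu)
    have m2 : v ∈ L.erase u := (List.mem_erase_of_ne (Ne.symm huv)).2 (List.mem_toFinset.1 hv)
    have p2 := List.perm_cons_erase m2
    have m3 : w ∈ (L.erase u).erase v :=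
      (List.mem_erase_of_ne (Ne.symm hvw)).2
        ((List.mem_erase_of_ne (Ne.symm huw)).2 (List.mem_toFinset.1 hw))
    have p3 := List.perm_cons_erase m3
    exact p1.trans (List.Perm.cons u (p2.trans (List.Perm.cons v p3)))
  have hfin : (u :: v :: w :: ((L.erase u).erase v).erase w).toFinset = L.toFinset :=
    (List.toFinset_eq_of_perm _ _ hperm).symm
  have hne : ∀ {f : Fin 4 → Fin 4} (_ : Function.Injective f) {s t : Fin 4}, s ≠ t → f s ≠ f t :=
    fun hf _ _ hst h => hst (hf h)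
  refine ⟨u, v, w, ((L.erase u).erase v).erase w, ![a, b, i2, i3], ![p', p, j2, j3],
    ![q, q', k2, k3], hperm, ?_, ?_, ?_⟩
  · refine ⟨hperm.nodup_iff.1 hnd, by rw [hfin]; exact hA, hi, hj, hk, e1, hvw', hwu,
      ?_, ?_, ?_, ?_, ?_, ?_⟩
    · obtain ⟨o1, o2, o3, o4⟩ := TRI_out hA hS (x := u) (y := v) (z := w) (r := i2) (r1 := a)
        (r2 := b) hu (by rw [e1]) (by rw [e2]) (hne hi (s := 2) (t := 0) (by decide))
        (hne hi (s := 2) (t := 1) (by decide))
      exact hR _ o1 o2 o3 o4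
    · obtain ⟨o1, o2, o3, o4⟩ := TRI_out hA hS (x := u) (y := v) (z := w) (r := i3) (r1 := a)
        (r2 := b) hu (by rw [e1]) (by rw [e2]) (hne hi (s := 3) (t := 0) (by decide))
        (hne hi (s := 3) (t := 1) (by decide))
      exact hR _ o1 o2 o3 o4
    · obtain ⟨o1, o2, o3, o4⟩ := TRI_out hA hS (x := v) (y := u) (z := w) (r := j2) (r1 := p)
        (r2 := p') hv (by rw [hvu]) (by rw [hvw']) (hne hj (s := 2) (t := 1) (by decide))
        (hne hj (s := 2) (t := 0) (by decide))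
      exact hR _ o1 o3 o2 o4
    · obtain ⟨o1, o2, o3, o4⟩ := TRI_out hA hS (x := v) (y := u) (z := w) (r := j3) (r1 := p)
        (r2 := p') hv (by rw [hvu]) (by rw [hvw']) (hne hj (s := 3) (t := 1) (by decide))
        (hne hj (s := 3) (t := 0) (by decide))
      exact hR _ o1 o3 o2 o4
    · obtain ⟨o1, o2, o3, o4⟩ := TRI_out hA hS (x := w) (y := u) (z := v) (r := k2) (r1 := q)
        (r2 := q') hw (by rw [hwu]) (by rw [hwv']) (hne hk (s := 2) (t := 0) (by decide))
        (hne hk (s := 2) (t := 1) (by decide))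
      exact hR _ o1 o3 o4 o2
    · obtain ⟨o1, o2, o3, o4⟩ := TRI_out hA hS (x := w) (y := u) (z := v) (r := k3) (r1 := q)
        (r2 := q') hw (by rw [hwu]) (by rw [hwv']) (hne hk (s := 3) (t := 0) (by decide))
        (hne hk (s := 3) (t := 1) (by decide))
      exact hR _ o1 o3 o4 o2
  · rw [hfin]
    exact hc
  · rw [hfin]
    intro d hd'
    rw [hmem d (TRI_dts.1 hd')]
    show _ ↔ (d = (u, a) ∨ d = (u, b) ∨ d = (v, p') ∨ d = (v, p) ∨ d = (w, q) ∨ d = (w, q'))
    constructor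
    · rintro (h | h | h | h | h | h)
      · exact Or.inl h
      · exact Or.inr (Or.inl h)
      · exact Or.inr (Or.inr (Or.inr (Or.inl h)))
      · exact Or.inr (Or.inr (Or.inl h))
      · exact Or.inr (Or.inr (Or.inr (Or.inr (Or.inl h))))
      · exact Or.inr (Or.inr (Or.inr (Or.inr (Or.inr h))))
    · rintro (h | h | h | h | h | h)
      · exact Or.inl h
      · exact Or.inr (Or.inl h)
      · exact Or.inr (Or.inr (Or.inr (Or.inl h)))
      · exact Or.inr (Or.inr (Or.inl h))
      · exact Or.inr (Or.inr (Or.inr (Or.inr (Or.inl h))))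
      · exact Or.inr (Or.inr (Or.inr (Or.inr (Or.inr h))))

end Pool.Agent.CY
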